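import Pool.Agent.W5h46.MW.Defs

/-!
# The group `C₂ ^ (X / V) ⋊ X` on `X / W × {0, 1}`: order, and basic facts on the pairs `(P, M)`
-/

set_option autoImplicit false
set_option linter.unusedSectionVars false

open IntermediateField NumberField

namespace Pool.Agent.W5h46.MW

open Pool.Agent.TH444.ML (dsc Gal)
open Pool.Agent.TH365.J3099 (act)
open Pool.Agent.W5h46.MR (fix_inj le_of_fix exists_field PV pv_basic)

section wr

variable {X : Type} [Group X] {V W : Subgroup X}

/-- `X` acts faithfully on `X / W` -/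
theorem Hyp.faithful (hH : Hyp V W) {g : X} (hg : ∀ q : X ⧸ W, g • q = q) : g = 1 := by
  by_contra h
  have h1 := hH.moves g h
  have h2 : {q : X ⧸ W | g • q ≠ q} = ∅ := by
    ext q
    simp [hg q]
  rw [h2, Set.ncard_empty] at h1
  omega

theorem Hyp.eq_of_smul (hH : Hyp V W) {g h : X} (hg : ∀ q : X ⧸ W, g • q = h • q) : g = h := by
  have h1 : h⁻¹ * g = 1 := hH.faithful fun q => by rw [mul_smul, hg, inv_smul_smul]
  rw [inv_mul_eq_one] at h1
  exact h1.symm

theorem Hyp.core (hH : Hyp V W) : W.normalCore = ⊥ := by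
  rw [eq_bot_iff]
  intro g hg
  rw [Subgroup.mem_bot]
  apply hH.faithful
  intro q
  obtain ⟨x, rfl⟩ := QuotientGroup.mk_surjective q
  change ((g * x : X) : X ⧸ W) = (x : X ⧸ W)
  rw [eq_comm, QuotientGroup.eq]
  have h1 : x⁻¹ * g * (x⁻¹)⁻¹ ∈ W := hg x⁻¹
  rw [inv_inv] at h1
  rw [← mul_assoc]
  exact h1

/-- the projection `X / W → X / V` -/
def pr (hH : Hyp V W) : X ⧸ W → X ⧸ V := Subgroup.quotientMapOfLE hH.le

@[simp] theorem pr_mk (hH : Hyp V W) (x : X) : pr hH (x : X ⧸ W) = (x : X ⧸ V) := rfl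

/-- the permutation `(q, b) ↦ (h q, f (pr q) b)` -/
def wrF (hH : Hyp V W) (p : X × (X ⧸ V → Equiv.Perm Bool)) : Equiv.Perm ((X ⧸ W) × Bool) where
  toFun x := (p.1 • x.1, p.2 (pr hH x.1) x.2)
  invFun y := (p.1⁻¹ • y.1, (p.2 (pr hH (p.1⁻¹ • y.1))).symm y.2)
  left_inv x := by simp
  right_inv y := by simp

theorem wrF_apply (hH : Hyp V W) (h : X) (f : X ⧸ V → Equiv.Perm Bool) (q : X ⧸ W) (b : Bool) :
    wrF hH (h, f) (q, b) = (h • q, f (pr hH q) b) := rfl

theorem wrF_apply_mk (hH : Hyp V W) (h : X) (f : X ⧸ V → Equiv.Perm Bool) (x : X) (b : Bool) :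
    wrF hH (h, f) ((x : X ⧸ W), b) = (((h * x : X) : X ⧸ W), f (x : X ⧸ V) b) := rfl

theorem wrF_injective (hH : Hyp V W) : Function.Injective (wrF hH) := by
  rintro ⟨h, f⟩ ⟨h', f'⟩ e
  have e1 : ∀ x : (X ⧸ W) × Bool, wrF hH (h, f) x = wrF hH (h', f') x := fun x => by rw [e]
  have h1 : h = h' := by
    apply hH.eq_of_smul
    intro q
    exact congrArg Prod.fst (e1 (q, true))
  subst h1
  have h2 : f = f' := by
    funext q
    obtain ⟨x, rfl⟩ := QuotientGroup.mk_surjective q
    ext b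
    exact congrArg Prod.snd (e1 ((x : X ⧸ W), b))
  rw [h2]

theorem range_wrF (hH : Hyp V W) : Set.range (wrF hH) = WrW V W := by
  ext π
  constructor
  · rintro ⟨⟨h, f⟩, rfl⟩
    exact ⟨h, f, fun x b => rfl⟩
  · rintro ⟨h, f, hh⟩
    refine ⟨(h, f), ?_⟩
    ext1 ⟨q, b⟩
    obtain ⟨x, rfl⟩ := QuotientGroup.mk_surjective q
    rw [hh]
    rfl

theorem wrF_mem (hH : Hyp V W) (p : X × (X ⧸ V → Equiv.Perm Bool)) : wrF hH p ∈ WrW V W := by
  rw [← range_wrF hH]
  exact ⟨p, rfl⟩

theorem ncard_WrW [Finite X] (hH : Hyp V W) :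
    (WrW V W).ncard = 2 ^ Nat.card (X ⧸ V) * Nat.card X := by
  classical
  have : Fintype (X ⧸ V) := Fintype.ofFinite _
  have : Fintype X := Fintype.ofFinite X
  rw [← range_wrF hH, ← Set.image_univ, Set.ncard_image_of_injective _ (wrF_injective hH),
    Set.ncard_univ, Nat.card_prod, Nat.card_fun, mul_comm]
  congr 2
  rw [Nat.card_eq_fintype_card, Fintype.card_perm]
  simp

end wr

theorem ncardW : NcardW := fun _ _ _ _ _ hH => ncard_WrW hH

section main

variable {K Ω : Type} [Field K] [NumberField K] [Field Ω] [Algebra K Ω] [IsAlgClosure K Ω]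
variable {X : Type} [Group X] [Finite X] {V W : Subgroup X}

/-- the kernel of `h` corresponds to the normal closure of `P` -/
theorem ker_eq (hH : Hyp V W) {P : IntermediateField K Ω} (h : (Ω ≃ₐ[K] Ω) →* X)
    (hs : Function.Surjective h) (hP : W.comap h = P.fixingSubgroup) :
    h.ker = (normalClosure K P Ω).fixingSubgroup := by
  have i2 : Normal K Ω := IsAlgClosure.normal K Ω
  have i3 : Algebra.IsAlgebraic K Ω := IsAlgClosure.isAlgebraic
  have i4 : Algebra.IsSeparable K Ω := inferInstance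
  have i5 : IsGalois K Ω := ⟨⟩
  apply le_antisymm
  · rw [← IntermediateField.le_iff_le, IntermediateField.normalClosure_def'']
    refine iSup_le fun f => ?_
    rintro _ ⟨x, hx, rfl⟩
    change f x ∈ fixedField h.ker
    rw [mem_fixedField_iff]
    intro σ hσ
    rw [MonoidHom.mem_ker] at hσ
    have h1 : f⁻¹ * σ * f ∈ P.fixingSubgroup := by
      rw [← hP, Subgroup.mem_comap, map_mul, map_mul, hσ, mul_one, map_inv, inv_mul_cancel]
      exact one_mem _
    rw [IntermediateField.mem_fixingSubgroup_iff] at h1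
    have h2 := h1 x hx
    change f.symm (σ (f x)) = x at h2
    rw [AlgEquiv.symm_apply_eq] at h2
    exact h2
  · have hle : P ≤ normalClosure K P Ω := IntermediateField.le_normalClosure P
    have h1 : (normalClosure K P Ω).fixingSubgroup ≤ W.comap h := by
      rw [hP]
      exact IntermediateField.fixingSubgroup_le hle
    have h2 : IsGalois K (normalClosure K P Ω) := ⟨⟩
    have h3 : (normalClosure K P Ω).fixingSubgroup.Normal := by
      rw [InfiniteGalois.normal_iff_isGalois]
      exact h2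
    have h4 : ((normalClosure K P Ω).fixingSubgroup.map h).Normal := h3.map h hs
    have h5 : (normalClosure K P Ω).fixingSubgroup.map h ≤ W := by
      rw [Subgroup.map_le_iff_le_comap]
      exact h1
    have h6 : (normalClosure K P Ω).fixingSubgroup.map h ≤ W.normalCore :=
      Subgroup.normal_le_normalCore.2 h5
    rw [hH.core] at h6
    intro σ hσ
    rw [MonoidHom.mem_ker]
    have h7 := h6 (Subgroup.mem_map_of_mem h hσ)
    rwa [Subgroup.mem_bot] at h7

/-- the pair of `(P, M)` is of the form in `MR/Grp.lean` -/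
theorem pw_pv (hH : Hyp V W) {P M : IntermediateField K Ω} (hPM : (P, M) ∈ PW K Ω V W) :
    (normalClosure K P Ω, M) ∈ PV K Ω X V := by
  obtain ⟨hfd, h, hs, hW, hV⟩ := hPM
  simp only at hfd hW hV
  have i2 : Normal K Ω := IsAlgClosure.normal K Ω
  have hfN : FiniteDimensional K (normalClosure K P Ω) := inferInstance
  exact ⟨hfN, h, hs, ker_eq hH h hs hW, hV⟩

theorem basic (hH : Hyp V W) {P M : IntermediateField K Ω} (hPM : (P, M) ∈ PW K Ω V W) :
    M ≤ P ∧ FiniteDimensional K M ∧ Module.finrank K P = Nat.card (X ⧸ W) ∧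
      Module.finrank K M = Nat.card (X ⧸ V) ∧ normalClosure K P Ω ∈ Gal K Ω X ∧
      Module.finrank K (normalClosure K P Ω) = Nat.card X := by
  have i2 : Normal K Ω := IsAlgClosure.normal K Ω
  have i3 : Algebra.IsAlgebraic K Ω := IsAlgClosure.isAlgebraic
  have i4 : Algebra.IsSeparable K Ω := inferInstance
  have i5 : IsGalois K Ω := ⟨⟩
  obtain ⟨-, hMfd, -, hcN, hcM, hG⟩ := pv_basic (pw_pv hH hPM)
  obtain ⟨hfd, h, hs, hW, hV⟩ := hPM
  simp only at hfd hW hV
  refine ⟨?_, hMfd, ?_, hcM, hG, hcN⟩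
  · apply le_of_fix
    rw [← hW, ← hV]
    exact Subgroup.comap_mono hH.le
  · rw [IntermediateField.finrank_eq_fixingSubgroup_index, ← hW,
      Subgroup.index_comap_of_surjective _ hs]
    rfl

end main

theorem basicW : BasicW := by
  intro K Ω X _ _ _ _ _ _ _ V W hH P M hPM
  exact basic hH hPM

end Pool.Agent.W5h46.MW
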