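import Pool.Agent.W5h46.MW.W1

/-!
# The group `C₂ ^ (X / V) ⋊ X` on `X / W × {0, 1}`: from the fields `P`, `M` to the extension
-/

set_option autoImplicit false
set_option linter.unusedSectionVars false

open IntermediateField NumberField

namespace Pool.Agent.W5h46.MW

open Pool.Agent.TH444.ML (dsc Gal)
open Pool.Agent.TH365.J3099 (act act_apply act_apply_apply ker_act imP ncard_imP)
open Pool.Agent.W5h46.ML (exists_ext act_val_eq card_emb Over exists_pair)
open Pool.Agent.W5h46.MR (fix_inj le_of_fix exists_field PV pv_basic emb_equiv)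

section main

variable {K Ω : Type} [Field K] [NumberField K] [Field Ω] [Algebra K Ω] [IsAlgClosure K Ω]
variable {X : Type} [Group X] [Finite X] {V W : Subgroup X}

/-- the data of the backward direction -/
theorem backwardW' (hH : Hyp V W) (L' P M : IntermediateField K Ω) (h : (Ω ≃ₐ[K] Ω) →* X)
    (hs : Function.Surjective h) (hPfd : FiniteDimensional K P)
    (hw : W.comap h = P.fixingSubgroup) (hv : V.comap h = M.fixingSubgroup)
    (L : IntermediateField K Ω) (hML : M ≤ L)
    (hLM : Module.finrank K L = 2 * Module.finrank K M) (hL' : L' = L ⊔ P)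
    (hfull : Module.finrank K (normalClosure K L' Ω) = 2 ^ Module.finrank K M * Nat.card X) :
    FiniteDimensional K L' ∧ Module.finrank K L' = 2 * Nat.card (X ⧸ W) ∧
      ∃ e : (L' →ₐ[K] Ω) ≃ (X ⧸ W) × Bool,
        (∀ σ, (e (act L' σ L'.val)).1 = ((h σ : X) : X ⧸ W)) ∧
        ∀ π : Equiv.Perm ((X ⧸ W) × Bool), π ∈ WrW V W ↔
          ∃ σ : Ω ≃ₐ[K] Ω, ∀ φ : L' →ₐ[K] Ω, e (σ.toAlgHom.comp φ) = π (e φ) := by
  subst hL'
  have i1 : IsAlgClosed Ω := IsAlgClosure.isAlgClosed K
  have i2 : Normal K Ω := IsAlgClosure.normal K Ω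
  have i3 : Algebra.IsAlgebraic K Ω := IsAlgClosure.isAlgebraic
  have i4 : Algebra.IsSeparable K Ω := inferInstance
  have i5 : IsGalois K Ω := ⟨⟩
  obtain ⟨hMP, hMfd, hcP, hcM, -, hcl⟩ := basic (V := V) (W := W) hH (P := P) (M := M)
    ⟨hPfd, h, hs, hw, hv⟩
  have hMpos : 0 < Module.finrank K M := Module.finrank_pos
  have hPpos : 0 < Module.finrank K P := Module.finrank_pos
  have hXpos : 0 < Nat.card X := Nat.card_pos
  have hLfd : FiniteDimensional K L := FiniteDimensional.of_finrank_pos (by omega)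
  have hfd : FiniteDimensional K (L ⊔ P : IntermediateField K Ω) := inferInstance
  -- the embeddings of `P` and of `M`
  obtain ⟨eP, heP, heP1⟩ := emb_equiv P h hs ((1 : X) : X ⧸ W) (by
    rw [← hw, MulAction.stabilizer_quotient])
  obtain ⟨eM, heM, heM1⟩ := emb_equiv M h hs ((1 : X) : X ⧸ V) (by
    rw [← hv, MulAction.stabilizer_quotient])
  obtain ⟨F, hF, hc⟩ := exists_pair L M hML hLM
  have hc2 : Nat.card (Over L M hML M.val) = Nat.card Bool := by
    rw [hc]
    simp
  have hfinO : Finite (Over L M hML M.val) := Nat.finite_of_card_ne_zero (by omega)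
  let β : Over L M hML M.val ≃ Bool := (Finite.card_eq.1 hc2).some
  have heP' : ∀ σ, eP (act P σ P.val) = (h σ : X ⧸ W) := fun σ => by
    rw [heP, heP1]
    change ((h σ * 1 : X) : X ⧸ W) = _
    rw [mul_one]
  have heM' : ∀ σ, eM (act M σ M.val) = (h σ : X ⧸ V) := fun σ => by
    rw [heM, heM1]
    change ((h σ * 1 : X) : X ⧸ V) = _
    rw [mul_one]
  have hVW : ∀ x y : X, (x : X ⧸ W) = (y : X ⧸ W) → (x : X ⧸ V) = (y : X ⧸ V) := by
    intro x y hxy
    rw [QuotientGroup.eq] at hxy ⊢
    exact hH.le hxy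
  have hF1 : ∀ σ, (F (act L σ L.val)).1 = act M σ M.val := fun σ => by
    rw [hF]
    rfl
  -- the degree
  have hdeg : Module.finrank K (L ⊔ P : IntermediateField K Ω) = 2 * Nat.card (X ⧸ W) := by
    have hLPne : ¬ L ≤ P := by
      intro hle
      have h1 : (L ⊔ P : IntermediateField K Ω) = P := sup_eq_right.2 hle
      have h2 : Module.finrank K (normalClosure K (L ⊔ P : IntermediateField K Ω) Ω) = Nat.card X := by
        rw [h1, hcl]
      rw [h2] at hfull
      have h4 : 2 ≤ 2 ^ Module.finrank K M := by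
        calc 2 = 2 ^ 1 := by norm_num
          _ ≤ 2 ^ Module.finrank K M := Nat.pow_le_pow_right (by norm_num) hMpos
      nlinarith
    have hLMf : L.fixingSubgroup ≤ M.fixingSubgroup := IntermediateField.fixingSubgroup_le hML
    have hPMf : P.fixingSubgroup ≤ M.fixingSubgroup := IntermediateField.fixingSubgroup_le hMP
    have h2 : (L.fixingSubgroup).relIndex M.fixingSubgroup = 2 := by
      have h3 := Subgroup.relIndex_mul_index hLMf
      rw [← finrank_eq_fixingSubgroup_index, ← finrank_eq_fixingSubgroup_index, hLM] at h3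
      exact Nat.eq_of_mul_eq_mul_right hMpos h3
    have h4 : (L.fixingSubgroup).relIndex P.fixingSubgroup ≤ 2 := by
      rw [← h2]
      exact Subgroup.relIndex_le_of_le_right hPMf (by rw [h2]; norm_num)
    have h5 : (L.fixingSubgroup).relIndex P.fixingSubgroup ≠ 1 := by
      intro h6
      rw [Subgroup.relIndex_eq_one] at h6
      exact hLPne (le_of_fix h6)
    have h7 : (L.fixingSubgroup ⊓ P.fixingSubgroup).relIndex P.fixingSubgroup =
        (L.fixingSubgroup).relIndex P.fixingSubgroup := Subgroup.inf_relIndex_right _ _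
    have h8 := Subgroup.relIndex_mul_index (inf_le_right : L.fixingSubgroup ⊓ P.fixingSubgroup ≤ P.fixingSubgroup)
    rw [h7, ← fixingSubgroup_sup, ← finrank_eq_fixingSubgroup_index, ← finrank_eq_fixingSubgroup_index] at h8
    have h9 : 0 < Module.finrank K (L ⊔ P : IntermediateField K Ω) := Module.finrank_pos
    have h10 : (L.fixingSubgroup).relIndex P.fixingSubgroup ≠ 0 := by
      intro h11
      rw [h11, zero_mul] at h8
      omega
    have h12 : (L.fixingSubgroup).relIndex P.fixingSubgroup = 2 := by omega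
    rw [← h8, h12, hcP]
  refine ⟨hfd, hdeg, ?_⟩
  -- the bijection
  choose s hsv using exists_ext (K := K) (Ω := Ω) (L ⊔ P : IntermediateField K Ω)
  let θ : (Ω ≃ₐ[K] Ω) → (X ⧸ W) × Bool := fun σ => ((h σ : X ⧸ W), β (F (act L σ L.val)).2)
  have hθ : ∀ σ τ, θ σ = θ τ ↔ act (L ⊔ P : IntermediateField K Ω) σ (L ⊔ P : IntermediateField K Ω).val =
      act (L ⊔ P : IntermediateField K Ω) τ (L ⊔ P : IntermediateField K Ω).val := by
    intro σ τ
    rw [act_val_eq, fixingSubgroup_sup, Subgroup.mem_inf, ← act_val_eq, ← act_val_eq]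
    constructor
    · intro h1
      have h2 : (h σ : X ⧸ W) = (h τ : X ⧸ W) := congrArg Prod.fst h1
      have h3 : β (F (act L σ L.val)).2 = β (F (act L τ L.val)).2 := congrArg Prod.snd h1
      have h4 : act P σ P.val = act P τ P.val := by
        apply eP.injective
        rw [heP', heP', h2]
      refine ⟨?_, h4⟩
      apply F.injective
      apply Prod.ext
      · rw [hF1, hF1]
        apply eM.injective
        rw [heM', heM', hVW _ _ h2]
      · exact β.injective h3
    · rintro ⟨h1, h2⟩
      apply Prod.ext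
      · change (h σ : X ⧸ W) = (h τ : X ⧸ W)
        rw [← heP', ← heP', h2]
      · change β (F (act L σ L.val)).2 = β (F (act L τ L.val)).2
        rw [h1]
  have hθs : ∀ σ, θ (s (act (L ⊔ P : IntermediateField K Ω) σ (L ⊔ P : IntermediateField K Ω).val)) = θ σ :=
    fun σ => (hθ _ _).2 (hsv _)
  have hinj : Function.Injective fun φ : (L ⊔ P : IntermediateField K Ω) →ₐ[K] Ω => θ (s φ) := by
    intro φ ψ h1
    have h2 := (hθ _ _).1 h1
    rw [hsv, hsv] at h2
    exact h2
  have hbij : Function.Bijective fun φ : (L ⊔ P : IntermediateField K Ω) →ₐ[K] Ω => θ (s φ) := by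
    have hf1 : Finite ((L ⊔ P : IntermediateField K Ω) →ₐ[K] Ω) := inferInstance
    rw [Nat.bijective_iff_injective_and_card]
    refine ⟨hinj, ?_⟩
    rw [card_emb, hdeg, Nat.card_prod, mul_comm]
    simp
  let e : ((L ⊔ P : IntermediateField K Ω) →ₐ[K] Ω) ≃ (X ⧸ W) × Bool := Equiv.ofBijective _ hbij
  have he : ∀ σ, e (act (L ⊔ P : IntermediateField K Ω) σ (L ⊔ P : IntermediateField K Ω).val) = θ σ := hθs
  refine ⟨e, fun σ => by rw [he], ?_⟩
  have hsub : imP (L ⊔ P : IntermediateField K Ω) e ⊆ WrW V W := by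
    rintro π ⟨σ, hσ⟩
    let A : X ⧸ V → Bool → Bool := fun q b => β (F (act L σ (F.symm (eM.symm q, β.symm b)))).2
    have hA : ∀ q, Function.Injective (A q) := by
      intro q b b' hb
      have h1 := β.injective hb
      have h2 : ∀ o, (F (act L σ (F.symm (eM.symm q, o)))).1 = act M σ (eM.symm q) := by
        intro o
        rw [hF]
        have h3 : (F (F.symm (eM.symm q, o))).1 = eM.symm q := by rw [Equiv.apply_symm_apply]
        rw [hF] at h3
        change act M σ ((F.symm (eM.symm q, o)).comp (IntermediateField.inclusion hML)) = _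
        rw [h3]
      have h4 : F (act L σ (F.symm (eM.symm q, β.symm b))) = F (act L σ (F.symm (eM.symm q, β.symm b'))) :=
        Prod.ext (by rw [h2, h2]) h1
      have h5 := F.symm.injective ((act L σ).injective (F.injective h4))
      exact β.symm.injective (congrArg Prod.snd h5)
    refine ⟨h σ, fun q => Equiv.ofBijective (A q) (Finite.injective_iff_bijective.1 (hA q)), fun x b => ?_⟩
    obtain ⟨φ, hφ⟩ := e.surjective ((x : X ⧸ W), b)
    have h1 : e (act (L ⊔ P : IntermediateField K Ω) (s φ) (L ⊔ P : IntermediateField K Ω).val) = θ (s φ) := he _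
    rw [hsv, hφ] at h1
    have h2 : (x : X ⧸ W) = (h (s φ) : X ⧸ W) := congrArg Prod.fst h1
    have h3 : b = β (F (act L (s φ) L.val)).2 := congrArg Prod.snd h1
    have h4 : π ((x : X ⧸ W), b) = θ (σ * s φ) := by
      rw [← hφ, ← hσ, ← he, map_mul, Equiv.Perm.mul_apply, hsv]
      rfl
    rw [h4]
    apply Prod.ext
    · change ((h (σ * s φ) : X) : X ⧸ W) = ((h σ * x : X) : X ⧸ W)
      rw [map_mul]
      have h6 : h σ • (x : X ⧸ W) = h σ • (h (s φ) : X ⧸ W) := by rw [h2]
      exact h6.symm
    · change β (F (act L (σ * s φ) L.val)).2 = β (F (act L σ (F.symm (eM.symm (x : X ⧸ V), β.symm b)))).2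
      have h5 : F.symm (eM.symm (x : X ⧸ V), β.symm b) = act L (s φ) L.val := by
        rw [Equiv.symm_apply_eq]
        apply Prod.ext
        · rw [hF1]
          change eM.symm _ = _
          rw [Equiv.symm_apply_eq, heM', hVW _ _ h2]
        · change β.symm b = _
          rw [Equiv.symm_apply_eq, h3]
      rw [h5, map_mul, Equiv.Perm.mul_apply]
  have heq : imP (L ⊔ P : IntermediateField K Ω) e = WrW V W := by
    apply Set.eq_of_subset_of_ncard_le hsub
    rw [ncard_imP _ e, ncard_WrW hH, hfull, hcM]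
  intro π
  rw [← heq]
  rfl

end main

theorem backwardW : BackwardW := by
  intro K Ω X _ _ _ _ _ _ _ V W hH L' P M h hs hPfd hw hv hL hfull
  obtain ⟨L, hML, hLM, hL'⟩ := hL
  exact backwardW' hH L' P M h hs hPfd hw hv L hML hLM hL' hfull

/-- the extensions above a pair have the group `C₂ ^ (X / V) ⋊ X` -/
theorem isWrW_of_mid {K Ω X : Type} [Field K] [NumberField K] [Field Ω] [Algebra K Ω]
    [IsAlgClosure K Ω] [Group X] [Finite X] {V W : Subgroup X} (hH : Hyp V W)
    {L' P M : IntermediateField K Ω} (h : MidW K Ω V W L' P M) :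
    FiniteDimensional K L' ∧ Module.finrank K L' = 2 * Nat.card (X ⧸ W) ∧ IsWrW K Ω V W L' := by
  obtain ⟨⟨hPfd, h, hs, hw, hv⟩, hL, hfull⟩ := h
  obtain ⟨h1, h2, e, -, he⟩ := backwardW K Ω X V W hH L' P M h hs hPfd hw hv hL hfull
  exact ⟨h1, h2, e, he⟩

end Pool.Agent.W5h46.MW
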