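import Pool.Agent.W5h46.MW.W1

/-!
# JOB W4: `P` and `M` are determined by `L'`
-/

set_option autoImplicit false
set_option linter.unusedSectionVars false

open IntermediateField NumberField

namespace Pool.Agent.W5h46.MW

open Pool.Agent.TH365.J3099 (act act_apply)
open Pool.Agent.W5h46.MR (fix_inj perm_bool)

section count

variable {X : Type} [Group X] [Finite X] {V W : Subgroup X}

theorem fib_card (hH : Hyp V W) (c : X ⧸ V) : {q : X ⧸ W | pr hH q = c}.ncard = W.relIndex V := by
  classical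
  let E := Subgroup.quotientEquivProdOfLE hH.le
  have hE : ∀ q, (E q).1 = pr hH q := by
    intro q
    obtain ⟨y, rfl⟩ := QuotientGroup.mk_surjective q
    rfl
  have h1 : E '' {q : X ⧸ W | pr hH q = c} = ({c} : Set (X ⧸ V)) ×ˢ Set.univ := by
    ext p
    constructor
    · rintro ⟨q, hq, rfl⟩
      refine ⟨?_, Set.mem_univ _⟩
      rw [Set.mem_singleton_iff, hE]
      exact hq
    · rintro ⟨hp, -⟩
      refine ⟨E.symm p, ?_, E.apply_symm_apply p⟩
      change pr hH (E.symm p) = c
      rw [← hE, E.apply_symm_apply]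
      exact hp
  rw [← Set.ncard_image_of_injective _ E.injective, h1, Set.ncard_prod, Set.ncard_singleton,
    one_mul, Set.ncard_univ]
  rfl

theorem rel_le (hH : Hyp V W) : W.relIndex V ≤ Nat.card (X ⧸ W) := by
  rw [← fib_card hH ((1 : X) : X ⧸ V), ← Set.ncard_univ]
  exact Set.ncard_le_ncard (Set.subset_univ _)

theorem rel_pos (hH : Hyp V W) : 0 < W.relIndex V := by
  rw [← fib_card hH ((1 : X) : X ⧸ V), Set.ncard_pos]
  exact ⟨((1 : X) : X ⧸ W), rfl⟩

/-- elements which move a point of `X / W` have few fixed points -/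
theorem fix_lt (hH : Hyp V W) {g : X} (hg : g ≠ 1) (a : X ⧸ V → Equiv.Perm Bool) :
    {p : (X ⧸ W) × Bool | wrF hH (g, a) p = p}.ncard < 2 * (Nat.card (X ⧸ W) - W.relIndex V) := by
  have h1 : {p : (X ⧸ W) × Bool | wrF hH (g, a) p = p} ⊆ {q : X ⧸ W | g • q ≠ q}ᶜ ×ˢ Set.univ := by
    rintro ⟨q, b⟩ hp
    refine ⟨?_, Set.mem_univ _⟩
    have h2 : g • q = q := congrArg Prod.fst hp
    intro h3
    exact h3 h2
  have h2 := Set.ncard_le_ncard h1 (Set.toFinite _)
  rw [Set.ncard_prod, Set.ncard_univ, Nat.card_eq_fintype_card (α := Bool), Fintype.card_bool] at h2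
  have h3 := Set.ncard_add_ncard_compl {q : X ⧸ W | g • q ≠ q}
  have h4 := hH.moves g hg
  omega

/-- elements which act trivially on `X / W` -/
theorem fix_one (hH : Hyp V W) (a : X ⧸ V → Equiv.Perm Bool) :
    {p : (X ⧸ W) × Bool | wrF hH (1, a) p = p}.ncard =
      2 * (Nat.card (X ⧸ W) - {q : X ⧸ W | a (pr hH q) ≠ 1}.ncard) := by
  have h1 : {p : (X ⧸ W) × Bool | wrF hH (1, a) p = p} =
      {q : X ⧸ W | a (pr hH q) ≠ 1}ᶜ ×ˢ Set.univ := by
    ext ⟨q, b⟩
    constructor
    · intro hp
      refine ⟨?_, Set.mem_univ _⟩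
      have h2 : a (pr hH q) b = b := congrArg Prod.snd hp
      intro h3
      exact h3 (perm_bool h2)
    · rintro ⟨hq, -⟩
      have h2 : a (pr hH q) = 1 := by
        by_contra h3
        exact hq h3
      change wrF hH (1, a) (q, b) = (q, b)
      rw [wrF_apply, h2, one_smul]
      rfl
  have h3 := Set.ncard_add_ncard_compl {q : X ⧸ W | a (pr hH q) ≠ 1}
  rw [h1, Set.ncard_prod, Set.ncard_univ, Nat.card_eq_fintype_card (α := Bool), Fintype.card_bool]
  omega

open Classical in
/-- the swap over one coset -/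
noncomputable def sw (c : X ⧸ V) : X ⧸ V → Equiv.Perm Bool :=
  fun q => if q = c then Equiv.swap false true else 1

theorem sw_ne (c q : X ⧸ V) : sw c q ≠ 1 ↔ q = c := by
  unfold sw
  split_ifs with h
  · refine ⟨fun _ => h, fun _ h1 => ?_⟩
    have := congrArg (fun f : Equiv.Perm Bool => f false) h1
    simp at this
  · simp [h]

theorem fix_sw (hH : Hyp V W) (c : X ⧸ V) :
    {p : (X ⧸ W) × Bool | wrF hH (1, sw c) p = p}.ncard =
      2 * (Nat.card (X ⧸ W) - W.relIndex V) := by
  rw [fix_one]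
  have h1 : {q : X ⧸ W | sw c (pr hH q) ≠ 1} = {q : X ⧸ W | pr hH q = c} := by
    ext q
    exact sw_ne c (pr hH q)
  rw [h1, fib_card]

/-- only one coset is moved -/
theorem two_cosets (hH : Hyp V W) (a : X ⧸ V → Equiv.Perm Bool) (c d : X ⧸ V) (hc : a c ≠ 1)
    (hd : a d ≠ 1) (hF : 2 * (Nat.card (X ⧸ W) - W.relIndex V) ≤
      {p : (X ⧸ W) × Bool | wrF hH (1, a) p = p}.ncard) : c = d := by
  by_contra hne
  rw [fix_one] at hF
  have h1 : {q : X ⧸ W | pr hH q = c} ∪ {q : X ⧸ W | pr hH q = d} ⊆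
      {q : X ⧸ W | a (pr hH q) ≠ 1} := by
    rintro q (hq | hq)
    · change a (pr hH q) ≠ 1
      rw [show pr hH q = c from hq]
      exact hc
    · change a (pr hH q) ≠ 1
      rw [show pr hH q = d from hq]
      exact hd
  have h2 := Set.ncard_le_ncard h1 (Set.toFinite _)
  rw [Set.ncard_union_eq (by
    rw [Set.disjoint_left]
    intro q hq hq'
    exact hne ((show pr hH q = c from hq).symm.trans hq')), fib_card, fib_card] at h2
  have h3 := rel_pos hH
  have h4 : {q : X ⧸ W | a (pr hH q) ≠ 1}.ncard ≤ Nat.card (X ⧸ W) := by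
    rw [← Set.ncard_univ]
    exact Set.ncard_le_ncard (Set.subset_univ _)
  omega

end count

theorem uniqueW' (hBk : BackwardW) : UniqueW := by
  intro K Ω X _ _ _ _ _ _ _ V W hH L' P M P₂ M₂ hm hm₂
  have i1 : IsAlgClosed Ω := IsAlgClosure.isAlgClosed K
  have i2 : Normal K Ω := IsAlgClosure.normal K Ω
  have i3 : Algebra.IsAlgebraic K Ω := IsAlgClosure.isAlgebraic
  have i4 : Algebra.IsSeparable K Ω := inferInstance
  have i5 : IsGalois K Ω := ⟨⟩
  set m : ℕ := 2 * (Nat.card (X ⧸ W) - W.relIndex V) with hmdef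
  have key : ∀ P M : IntermediateField K Ω, MidW K Ω V W L' P M → ∀ σ : Ω ≃ₐ[K] Ω,
      (σ ∈ P.fixingSubgroup ↔ ∃ τ : Ω ≃ₐ[K] Ω,
        m ≤ {φ : L' →ₐ[K] Ω | act L' τ φ = φ}.ncard ∧ act L' τ L'.val = act L' σ L'.val) ∧
      (σ ∈ M.fixingSubgroup ↔ ∃ τ : Ω ≃ₐ[K] Ω,
        m ≤ {φ : L' →ₐ[K] Ω | act L' τ φ = φ}.ncard ∧ act L' τ L'.val ≠ L'.val ∧
          act L' τ (act L' σ L'.val) ≠ act L' σ L'.val) := by
    intro P M hMid σ
    obtain ⟨⟨hPfd, h, hs, hW, hV⟩, hex, hfull⟩ := hMid
    simp only at hPfd hW hV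
    obtain ⟨hfd, -, e, he1, he⟩ := hBk K Ω X V W hH L' P M h hs hPfd hW hV hex hfull
    -- elements of the Galois group and of the wreath product
    have hto : ∀ τ : Ω ≃ₐ[K] Ω, ∃ g : X, ∃ a : X ⧸ V → Equiv.Perm Bool,
        ∀ φ, e (act L' τ φ) = wrF hH (g, a) (e φ) := by
      intro τ
      have h1 : (e.symm.trans (act L' τ)).trans e ∈ WrW V W := by
        rw [he]
        refine ⟨τ, fun φ => ?_⟩
        simp [act_apply]
      rw [← range_wrF hH] at h1
      obtain ⟨⟨g, a⟩, hga⟩ := h1
      refine ⟨g, a, fun φ => ?_⟩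
      rw [hga]
      simp
    have hfrom : ∀ (g : X) (a : X ⧸ V → Equiv.Perm Bool), ∃ τ : Ω ≃ₐ[K] Ω,
        ∀ φ, e (act L' τ φ) = wrF hH (g, a) (e φ) := by
      intro g a
      obtain ⟨τ, hτ⟩ := (he _).1 (wrF_mem hH (g, a))
      refine ⟨τ, fun φ => ?_⟩
      rw [act_apply]
      exact hτ φ
    have hF : ∀ (τ : Ω ≃ₐ[K] Ω) (g : X) (a : X ⧸ V → Equiv.Perm Bool),
        (∀ φ, e (act L' τ φ) = wrF hH (g, a) (e φ)) →
        {φ : L' →ₐ[K] Ω | act L' τ φ = φ}.ncard =
          {p : (X ⧸ W) × Bool | wrF hH (g, a) p = p}.ncard := by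
      intro τ g a hτ
      rw [← Set.ncard_image_of_injective _ e.injective]
      congr 1
      ext p
      constructor
      · rintro ⟨φ, hφ, rfl⟩
        change wrF hH (g, a) (e φ) = e φ
        rw [← hτ, show act L' τ φ = φ from hφ]
      · intro hp
        refine ⟨e.symm p, ?_, e.apply_symm_apply p⟩
        apply e.injective
        rw [hτ, e.apply_symm_apply]
        exact hp
    have hone : (e L'.val).1 = ((1 : X) : X ⧸ W) := by
      have := he1 1
      rw [map_one, map_one] at this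
      exact this
    -- large sets of fixed points
    have hlarge : ∀ (τ : Ω ≃ₐ[K] Ω), m ≤ {φ : L' →ₐ[K] Ω | act L' τ φ = φ}.ncard →
        ∃ a : X ⧸ V → Equiv.Perm Bool, (∀ φ, e (act L' τ φ) = wrF hH (1, a) (e φ)) ∧
          m ≤ {p : (X ⧸ W) × Bool | wrF hH (1, a) p = p}.ncard := by
      intro τ hτ
      obtain ⟨g, a, hga⟩ := hto τ
      rw [hF τ g a hga] at hτ
      have hg : g = 1 := by
        by_contra hg
        have := fix_lt hH hg a
        omega
      subst hg
      exact ⟨a, hga, hτ⟩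
    obtain ⟨τs, hτs⟩ := hfrom 1 (sw ((1 : X) : X ⧸ V))
    have hτsF : m ≤ {φ : L' →ₐ[K] Ω | act L' τs φ = φ}.ncard := by
      rw [hF τs 1 _ hτs, fix_sw]
    have hswe : ∀ (q : X ⧸ W) (b : Bool), pr hH q = ((1 : X) : X ⧸ V) →
        wrF hH (1, sw ((1 : X) : X ⧸ V)) (q, b) = (q, !b) := by
      intro q b hq
      rw [wrF_apply, hq, one_smul]
      unfold sw
      rw [if_pos rfl]
      cases b <;> simp
    constructor
    · rw [← hW, Subgroup.mem_comap]
      constructor
      · intro hσ
        have h1 : (e (act L' σ L'.val)).1 = ((1 : X) : X ⧸ W) := by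
          rw [he1, eq_comm, QuotientGroup.eq, inv_one, one_mul]
          exact hσ
        by_cases hb : (e (act L' σ L'.val)).2 = (e L'.val).2
        · refine ⟨1, ?_, ?_⟩
          · have h2 : {φ : L' →ₐ[K] Ω | act L' 1 φ = φ} = Set.univ := by
              ext φ
              rw [map_one]
              simp
            rw [h2, ← Set.ncard_image_of_injective _ e.injective, Set.image_univ,
              e.surjective.range_eq, Set.ncard_univ, Nat.card_prod,
              Nat.card_eq_fintype_card (α := Bool), Fintype.card_bool]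
            omega
          · rw [map_one]
            apply e.injective
            exact Prod.ext (hone.trans h1.symm) hb.symm
        · refine ⟨τs, hτsF, ?_⟩
          apply e.injective
          rw [hτs]
          have h3 : e L'.val = (((1 : X) : X ⧸ W), (e L'.val).2) := Prod.ext hone rfl
          rw [h3, hswe _ _ rfl]
          apply Prod.ext
          · exact h1.symm
          · change (!(e L'.val).2) = (e (act L' σ L'.val)).2
            revert hb
            cases (e L'.val).2 <;> cases (e (act L' σ L'.val)).2 <;> simp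
      · rintro ⟨τ, hτ, hτσ⟩
        obtain ⟨a, ha, -⟩ := hlarge τ hτ
        have h1 : (e (act L' τ L'.val)).1 = ((1 : X) : X ⧸ W) := by
          rw [ha]
          change (1 : X) • (e L'.val).1 = _
          rw [one_smul, hone]
        rw [hτσ, he1, eq_comm, QuotientGroup.eq, inv_one, one_mul] at h1
        exact h1
    · rw [← hV, Subgroup.mem_comap]
      constructor
      · intro hσ
        have hmv : ∀ φ : L' →ₐ[K] Ω, pr hH (e φ).1 = ((1 : X) : X ⧸ V) →
            act L' τs φ ≠ φ := by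
          intro φ hφ hfix
          have h1 := hτs φ
          rw [hfix] at h1
          have h2 : e φ = ((e φ).1, (e φ).2) := rfl
          rw [h2, hswe _ _ hφ] at h1
          have h3 := congrArg Prod.snd h1
          revert h3
          cases (e φ).2 <;> simp
        refine ⟨τs, hτsF, hmv _ ?_, hmv _ ?_⟩
        · rw [hone]
          rfl
        · rw [he1, pr_mk, eq_comm, QuotientGroup.eq, inv_one, one_mul]
          exact hσ
      · rintro ⟨τ, hτ, hτ1, hτ2⟩
        obtain ⟨a, ha, hma⟩ := hlarge τ hτ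
        have hne : ∀ φ : L' →ₐ[K] Ω, act L' τ φ ≠ φ → a (pr hH (e φ).1) ≠ 1 := by
          intro φ hφ h1
          apply hφ
          apply e.injective
          rw [ha]
          change ((1 : X) • (e φ).1, a (pr hH (e φ).1) (e φ).2) = e φ
          rw [h1, one_smul]
          rfl
        have h1 := two_cosets hH a _ _ (hne _ hτ1) (hne _ hτ2) hma
        rw [hone, he1, pr_mk, pr_mk, QuotientGroup.eq, inv_one, one_mul] at h1
        exact h1
  constructor
  · apply fix_inj
    ext σ
    rw [(key P M hm σ).1, (key P₂ M₂ hm₂ σ).1]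
  · apply fix_inj
    ext σ
    rw [(key P M hm σ).2, (key P₂ M₂ hm₂ σ).2]

theorem uniqueW (hBk : BackwardW) (_hN : NcardW) : UniqueW := uniqueW' hBk

end Pool.Agent.W5h46.MW
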