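import Pool.Agent.W5h46.MW.Defs

/-!
# JOB W5: the number of conjugate fields, the hypotheses on the groups, existence of pairs

Author: helper54.
-/

set_option autoImplicit false
set_option linter.unusedSectionVars false

open IntermediateField

namespace Pool.Agent.W5h46.MW

open Pool.Agent.TH444.ML (dsc Gal)
open Pool.Agent.TH365.J3099 (act act_apply)

section conj

variable {X : Type} [Group X]

/-- fixed by the same elements of the group -/
def fixSetoid (V W : Subgroup X) : Setoid ((X ⧸ W) × Bool) where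
  r a c := ∀ π : Equiv.Perm ((X ⧸ W) × Bool), π ∈ WrW V W → (π a = a ↔ π c = c)
  iseqv :=
    { refl := fun _ _ _ => Iff.rfl
      symm := fun h π hπ => (h π hπ).symm
      trans := fun h h' π hπ => (h π hπ).trans (h' π hπ) }

/-- the number of the fields isomorphic to `L` -/
theorem conj_cardW {K Ω : Type} [Field K] [NumberField K] [Field Ω] [Algebra K Ω]
    [IsAlgClosure K Ω] (V W : Subgroup X) (L : IntermediateField K Ω) (hW : IsWrW K Ω V W L) :
    Set.ncard {L' : IntermediateField K Ω | Nonempty (L ≃ₐ[K] L')} =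
      Nat.card (Quotient (fixSetoid V W)) := by
  obtain ⟨e, he⟩ := hW
  have : Algebra.IsAlgebraic K Ω := IsAlgClosure.isAlgebraic
  have : Normal K Ω := IsAlgClosure.normal K Ω
  have : IsGalois K Ω := ⟨⟩
  have key : ∀ φ ψ : L →ₐ[K] Ω, φ.fieldRange = ψ.fieldRange ↔ (fixSetoid V W).r (e φ) (e ψ) := by
    intro φ ψ
    rw [Pool.Agent.TH928.J3106.range_eq_iff]
    constructor
    · intro h π hπ
      obtain ⟨σ, hσ⟩ := (he π).1 hπ
      have := h σ
      rw [← hσ, ← hσ, e.injective.eq_iff, e.injective.eq_iff]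
      exact this
    · intro h σ
      let π : Equiv.Perm ((X ⧸ W) × Bool) := (e.symm.trans (act L σ)).trans e
      have hp : ∀ χ : L →ₐ[K] Ω, e (σ.toAlgHom.comp χ) = π (e χ) := by
        intro χ
        simp [π, act_apply]
      have hπ : π ∈ WrW V W := (he π).2 ⟨σ, hp⟩
      have := h π hπ
      rw [← hp, ← hp, e.injective.eq_iff, e.injective.eq_iff] at this
      exact this
  let f : Quotient (fixSetoid V W) → IntermediateField K Ω := fun q => (e.symm q.out).fieldRange
  have hf : Function.Injective f := by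
    intro a b hab
    have h1 := (key _ _).1 hab
    rw [e.apply_symm_apply, e.apply_symm_apply] at h1
    rw [← Quotient.out_eq a, ← Quotient.out_eq b]
    exact Quotient.sound h1
  have hr : {L' : IntermediateField K Ω | Nonempty (L ≃ₐ[K] L')} = Set.range f := by
    ext L'
    constructor
    · rintro ⟨g⟩
      refine ⟨Quotient.mk _ (e (L'.val.comp g.toAlgHom)), ?_⟩
      have h1 : (L'.val.comp g.toAlgHom).fieldRange = L' := by
        ext x
        constructor
        · rintro ⟨y, rfl⟩
          exact (g y).2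
        · intro hx
          exact ⟨g.symm ⟨x, hx⟩, by simp⟩
      have h2 : f (Quotient.mk _ (e (L'.val.comp g.toAlgHom))) =
          (L'.val.comp g.toAlgHom).fieldRange := by
        rw [key, e.apply_symm_apply]
        exact Quotient.exact (Quotient.out_eq _)
      rw [h2, h1]
    · rintro ⟨q, rfl⟩
      exact ⟨AlgEquiv.ofInjectiveField (e.symm q.out)⟩
  rw [hr, Set.ncard_range_of_injective hf]

end conj

theorem conjW : ConjW := by
  intro X _ _ V W
  refine ⟨Nat.card (Quotient (fixSetoid V W)), ?_, ?_⟩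
  · have : Nonempty (Quotient (fixSetoid V W)) := ⟨Quotient.mk _ (((1 : X) : X ⧸ W), false)⟩
    exact Nat.card_pos
  · intro K Ω _ _ _ _ _ L hL
    exact conj_cardW V W L hL

theorem hypW : HypW := by
  intro X _ _ V W U hWV hWU hU hidx
  refine ⟨hWV, fun g hg => ?_⟩
  -- a point `x U` which is moved
  have h1 : ∃ x : X, x⁻¹ * g * x ∉ U := by
    by_contra hcon
    push Not at hcon
    apply hg
    have h2 : g ∈ U.normalCore := by
      intro b
      have := hcon b⁻¹
      rwa [inv_inv] at this
    rw [hU] at h2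
    exact Subgroup.mem_bot.1 h2
  obtain ⟨x, hx⟩ := h1
  let f : U ⧸ W.subgroupOf U → X ⧸ W := fun q => ((x * ((q.out : U) : X) : X) : X ⧸ W)
  have hf : Function.Injective f := by
    intro a b hab
    have h2 : (x * ((a.out : U) : X))⁻¹ * (x * ((b.out : U) : X)) ∈ W := QuotientGroup.eq.1 hab
    have h3 : (a.out : U)⁻¹ * (b.out : U) ∈ W.subgroupOf U := by
      rw [Subgroup.mem_subgroupOf]
      have h4 : (((a.out : U)⁻¹ * (b.out : U) : U) : X) =
          (x * ((a.out : U) : X))⁻¹ * (x * ((b.out : U) : X)) := by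
        push_cast
        group
      rw [h4]
      exact h2
    have h5 : ((a.out : U) : U ⧸ W.subgroupOf U) = ((b.out : U) : U ⧸ W.subgroupOf U) :=
      QuotientGroup.eq.2 h3
    rwa [QuotientGroup.out_eq', QuotientGroup.out_eq'] at h5
  have h2 : W.relIndex U ≤ Set.ncard {q : X ⧸ W | g • q ≠ q} := by
    have h3 : W.relIndex U = Set.ncard (Set.range f) := by
      rw [Set.ncard_range_of_injective hf]
      rfl
    rw [h3]
    apply Set.ncard_le_ncard _ (Set.toFinite _)
    rintro _ ⟨q, rfl⟩ hq
    apply hx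
    have h4 : (((g * (x * ((q.out : U) : X)) : X)) : X ⧸ W) = ((x * ((q.out : U) : X) : X) : X ⧸ W) := hq
    have h5 : (x * ((q.out : U) : X))⁻¹ * (g * (x * ((q.out : U) : X))) ∈ W := by
      rw [← QuotientGroup.eq]
      exact h4.symm
    have h6 := hWU h5
    have h7 : x⁻¹ * g * x = ((q.out : U) : X) *
        ((x * ((q.out : U) : X))⁻¹ * (g * (x * ((q.out : U) : X)))) * ((q.out : U) : X)⁻¹ := by
      group
    rw [h7]
    exact U.mul_mem (U.mul_mem (q.out : U).2 h6) (U.inv_mem (q.out : U).2)
  refine lt_of_lt_of_le ?_ h2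
  have h3 : W.relIndex V * V.index = W.index := Subgroup.relIndex_mul_index hWV
  have h4 : W.relIndex U * U.index = W.index := Subgroup.relIndex_mul_index hWU
  have h5 : 0 < W.index := Nat.pos_of_ne_zero Subgroup.index_ne_zero_of_finite
  have h6 : 0 < W.relIndex V := by
    by_contra h
    have : W.relIndex V = 0 := by omega
    rw [this, zero_mul] at h3
    omega
  have h7 : 0 < U.index := Nat.pos_of_ne_zero Subgroup.index_ne_zero_of_finite
  have h8 : U.index < V.index := by nlinarith
  by_contra hcon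
  push Not at hcon
  have h9 : W.relIndex U * U.index < W.relIndex V * V.index := by
    calc W.relIndex U * U.index ≤ W.relIndex V * U.index := Nat.mul_le_mul_right _ hcon
      _ < W.relIndex V * V.index := Nat.mul_lt_mul_of_pos_left h8 h6
  omega

theorem existsW : ExistsW := by
  rintro K Ω X _ _ _ _ _ _ _ V W ⟨N, hfd, hgal, ⟨f⟩⟩
  have hn : Normal K Ω := IsAlgClosure.normal K Ω
  have i3 : Algebra.IsAlgebraic K Ω := IsAlgClosure.isAlgebraic
  have i4 : Algebra.IsSeparable K Ω := inferInstance
  have i5 : IsGalois K Ω := ⟨⟩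
  let h : (Ω ≃ₐ[K] Ω) →* X := f.toMonoidHom.comp (AlgEquiv.restrictNormalHom N)
  have hs : Function.Surjective h := f.surjective.comp (AlgEquiv.restrictNormalHom_surjective Ω)
  have hker : h.ker = N.fixingSubgroup := by
    rw [← IntermediateField.restrictNormalHom_ker]
    ext σ
    rw [MonoidHom.mem_ker, MonoidHom.mem_ker]
    change f (AlgEquiv.restrictNormalHom N σ) = 1 ↔ _
    rw [map_eq_one_iff f f.injective]
  have hle : ∀ Z : Subgroup X, h.ker ≤ Z.comap h := by
    intro Z σ hσ
    rw [MonoidHom.mem_ker] at hσ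
    rw [Subgroup.mem_comap, hσ]
    exact one_mem _
  have hopen : ∀ Z : Subgroup X, IsOpen ((Z.comap h : Subgroup (Ω ≃ₐ[K] Ω)) : Set (Ω ≃ₐ[K] Ω)) :=
    fun Z => Subgroup.isOpen_mono (hker ▸ hle Z) N.fixingSubgroup_isOpen
  obtain ⟨M, hM, -⟩ := Pool.Agent.W5h46.MR.exists_field (V.comap h) (hopen V)
  obtain ⟨P, hP, hPf⟩ := Pool.Agent.W5h46.MR.exists_field (W.comap h) (hopen W)
  exact ⟨(P, M), hPf, h, hs, hP.symm, hM.symm⟩

end Pool.Agent.W5h46.MW
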