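import Pool.Agent.W5h46.MW.All
import Pool.Agent.W5h46.MW.W1
import Pool.Agent.W5h46.MW.W2
import Pool.Agent.W5h46.MW.W3
import Pool.Agent.W5h46.MW.W4
import Pool.Agent.W5h46.MW.W5
import Pool.Agent.W5h46.MR.JobD

/-!
# The remaining facts
-/

set_option autoImplicit false

namespace Pool.Agent.W5h46.MW

theorem rest : Rest where
  fwd := forwardW ncardW basicW
  bwd := backwardW
  uni := uniqueW backwardW ncardW
  hyp := hypW
  ex := existsW
  conj := conjW
  pow := fun K Ω _ _ _ _ M N _ hMN r hr => Pool.Agent.W5h46.MR.dsc_pow_le K Ω M N hMN r hr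

end Pool.Agent.W5h46.MW
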