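import Pool.Agent.W5h46.MW.Defs

/-!
# The product `(C₂ ≀ X₁) × Y` in product action is of the form `C₂ ^ (X / V) ⋊ X` on `X / W × {0, 1}`
-/

set_option autoImplicit false
set_option linter.unusedSectionVars false

namespace Pool.Agent.W5h46.MW

/-- `G ≤ S_d` is the direct product `(C₂ ≀ X₁) × Y` in product action: `X₁` acts on `X₁ / W₁`, `Y` acts
on `Y / W₂`, and `G` acts on `(X₁ / W₁ × {0, 1}) × Y / W₂`. -/
def IsProd {X₁ Y : Type} [Group X₁] [Group Y] (W₁ : Subgroup X₁) (W₂ : Subgroup Y) {d : ℕ}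
    (G : Subgroup (Equiv.Perm (Fin d))) : Prop :=
  ∃ f : Fin d ≃ ((X₁ ⧸ W₁) × Bool) × (Y ⧸ W₂), ∀ π : Equiv.Perm (Fin d), π ∈ G ↔
    ∃ (h : X₁) (a : X₁ ⧸ W₁ → Equiv.Perm Bool) (y : Y), ∀ q b z,
      π (f.symm ((q, b), z)) = f.symm ((h • q, a q b), y • z)

section

variable {X₁ Y : Type} [Group X₁] [Group Y] (W₁ U₁ : Subgroup X₁) (W₂ : Subgroup Y)

/-- `(X₁ × Y) / (W₁ × W₂) = X₁ / W₁ × Y / W₂` -/
def prodQuot : ((X₁ × Y) ⧸ (W₁.prod W₂)) ≃ (X₁ ⧸ W₁) × (Y ⧸ W₂) where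
  toFun := Quotient.lift (fun p : X₁ × Y => (((p.1 : X₁) : X₁ ⧸ W₁), ((p.2 : Y) : Y ⧸ W₂))) (by
    rintro ⟨x, y⟩ ⟨x', y'⟩ h
    have h1 : (x, y)⁻¹ * (x', y') ∈ W₁.prod W₂ := QuotientGroup.leftRel_apply.1 h
    rw [Subgroup.mem_prod] at h1
    exact Prod.ext (QuotientGroup.eq.2 h1.1) (QuotientGroup.eq.2 h1.2))
  invFun q := Quotient.lift₂ (fun (x : X₁) (y : Y) => (((x, y) : X₁ × Y) : (X₁ × Y) ⧸ (W₁.prod W₂))) (by
    intro x y x' y' h h'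
    have h1 : x⁻¹ * x' ∈ W₁ := QuotientGroup.leftRel_apply.1 h
    have h2 : y⁻¹ * y' ∈ W₂ := QuotientGroup.leftRel_apply.1 h'
    rw [QuotientGroup.eq, Subgroup.mem_prod]
    exact ⟨h1, h2⟩) q.1 q.2
  left_inv := by
    intro q
    obtain ⟨⟨x, y⟩, rfl⟩ := QuotientGroup.mk_surjective q
    rfl
  right_inv := by
    rintro ⟨q, r⟩
    obtain ⟨x, rfl⟩ := QuotientGroup.mk_surjective q
    obtain ⟨y, rfl⟩ := QuotientGroup.mk_surjective r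
    rfl

@[simp] theorem prodQuot_mk (x : X₁) (y : Y) :
    prodQuot W₁ W₂ (((x, y) : X₁ × Y) : (X₁ × Y) ⧸ (W₁.prod W₂)) =
      (((x : X₁) : X₁ ⧸ W₁), ((y : Y) : Y ⧸ W₂)) := rfl

@[simp] theorem prodQuot_symm_mk (x : X₁) (y : Y) :
    (prodQuot W₁ W₂).symm (((x : X₁) : X₁ ⧸ W₁), ((y : Y) : Y ⧸ W₂)) =
      (((x, y) : X₁ × Y) : (X₁ × Y) ⧸ (W₁.prod W₂)) := rfl

/-- `(X₁ × Y) / (W₁ × Y) = X₁ / W₁` -/
def topQuot : ((X₁ × Y) ⧸ (W₁.prod (⊤ : Subgroup Y))) ≃ X₁ ⧸ W₁ where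
  toFun q := (prodQuot W₁ (⊤ : Subgroup Y) q).1
  invFun q := (prodQuot W₁ (⊤ : Subgroup Y)).symm (q, ((1 : Y) : Y ⧸ (⊤ : Subgroup Y)))
  left_inv := by
    intro q
    rw [Equiv.symm_apply_eq]
    have : Subsingleton (Y ⧸ (⊤ : Subgroup Y)) := QuotientGroup.subsingleton_quotient_top
    apply Prod.ext
    · rfl
    · exact Subsingleton.elim _ _
  right_inv := by
    intro q
    simp

@[simp] theorem topQuot_mk (x : X₁) (y : Y) :
    topQuot W₁ (((x, y) : X₁ × Y) : (X₁ × Y) ⧸ (W₁.prod (⊤ : Subgroup Y))) =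
      ((x : X₁) : X₁ ⧸ W₁) := rfl

theorem topQuot_symm_mk (x : X₁) (y : Y) :
    (topQuot W₁).symm ((x : X₁) : X₁ ⧸ W₁) =
      (((x, y) : X₁ × Y) : (X₁ × Y) ⧸ (W₁.prod (⊤ : Subgroup Y))) := by
  rw [Equiv.symm_apply_eq, topQuot_mk]

variable {W₁ W₂}

/-- the product action is an action on `X / W × {0, 1}` -/
theorem isC2W_of_prod {d : ℕ} {G : Subgroup (Equiv.Perm (Fin d))} (hG : IsProd W₁ W₂ G) :
    IsC2W (W₁.prod (⊤ : Subgroup Y)) (W₁.prod W₂) G := by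
  obtain ⟨f, hf⟩ := hG
  let E : ((X₁ ⧸ W₁) × Bool) × (Y ⧸ W₂) ≃ ((X₁ × Y) ⧸ (W₁.prod W₂)) × Bool :=
    { toFun := fun p => ((prodQuot W₁ W₂).symm (p.1.1, p.2), p.1.2)
      invFun := fun p => (((prodQuot W₁ W₂ p.1).1, p.2), (prodQuot W₁ W₂ p.1).2)
      left_inv := fun p => by simp
      right_inv := fun p => by simp }
  refine ⟨f.trans E, fun π => ?_⟩
  rw [hf π]
  constructor
  · rintro ⟨h, a, y, hh⟩
    refine ⟨(h, y), fun q => a (topQuot W₁ q), ?_⟩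
    rintro i ⟨x, z⟩ hx
    obtain ⟨⟨⟨q, b⟩, r⟩, rfl⟩ := f.symm.surjective i
    have h1 : (prodQuot W₁ W₂).symm (q, r) = (((x, z) : X₁ × Y) : (X₁ × Y) ⧸ (W₁.prod W₂)) := by
      simpa [E] using hx
    rw [Equiv.symm_apply_eq, prodQuot_mk, Prod.mk.injEq] at h1
    obtain ⟨rfl, rfl⟩ := h1
    rw [hh]
    simp only [Equiv.trans_apply, Equiv.apply_symm_apply]
    rfl
  · rintro ⟨⟨h, y⟩, a, hh⟩
    refine ⟨h, fun q => a ((topQuot W₁).symm q), y, ?_⟩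
    intro q b r
    obtain ⟨x, rfl⟩ := QuotientGroup.mk_surjective q
    obtain ⟨z, rfl⟩ := QuotientGroup.mk_surjective r
    have h1 := hh (f.symm ((((x : X₁) : X₁ ⧸ W₁), b), ((z : Y) : Y ⧸ W₂))) (x, z) (by
      simp [E])
    rw [Equiv.eq_symm_apply]
    apply E.injective
    beta_reduce
    rw [topQuot_symm_mk W₁ x z]
    rw [Equiv.trans_apply] at h1
    rw [h1]
    simp only [Equiv.trans_apply, Equiv.apply_symm_apply]
    rfl

theorem relIndex_prod : (W₁.prod W₂).relIndex (W₁.prod (⊤ : Subgroup Y)) = W₂.index := by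
  let φ : W₁.prod (⊤ : Subgroup Y) →* Y := (MonoidHom.snd X₁ Y).comp (W₁.prod (⊤ : Subgroup Y)).subtype
  have hφ : Function.Surjective φ := fun y =>
    ⟨⟨(1, y), Subgroup.mem_prod.2 ⟨one_mem _, Subgroup.mem_top _⟩⟩, rfl⟩
  have h1 : (W₁.prod W₂).subgroupOf (W₁.prod (⊤ : Subgroup Y)) = W₂.comap φ := by
    ext ⟨⟨x, y⟩, hxy⟩
    rw [Subgroup.mem_prod] at hxy
    rw [Subgroup.mem_subgroupOf, Subgroup.mem_prod, Subgroup.mem_comap]
    exact ⟨fun h => h.2, fun h => ⟨hxy.1, h⟩⟩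
  rw [Subgroup.relIndex, h1, Subgroup.index_comap_of_surjective _ hφ]

theorem index_prod' : (U₁.prod W₂).index = U₁.index * W₂.index := Subgroup.index_prod _ _

theorem index_prod_top : (W₁.prod (⊤ : Subgroup Y)).index = W₁.index := by
  rw [Subgroup.index_prod, Subgroup.index_top, mul_one]

theorem core_prod (h₁ : U₁.normalCore = ⊥) (h₂ : W₂.normalCore = ⊥) :
    (U₁.prod W₂).normalCore = ⊥ := by
  rw [eq_bot_iff]
  rintro ⟨x, y⟩ h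
  have hx : x ∈ U₁.normalCore := by
    intro g
    have := h (g, 1)
    exact (Subgroup.mem_prod.1 this).1
  have hy : y ∈ W₂.normalCore := by
    intro g
    have := h (1, g)
    exact (Subgroup.mem_prod.1 this).2
  rw [h₁, Subgroup.mem_bot] at hx
  rw [h₂, Subgroup.mem_bot] at hy
  rw [hx, hy]
  exact one_mem _

end

end Pool.Agent.W5h46.MW
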