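import Pool.Agent.TH444.ML.WrG
import Pool.Agent.TH444.TW.ClsDef

/-!
# The stabilizer of a point of `A × {1, ..., n}` in `A ≀ S_n`
-/

set_option autoImplicit false

namespace Pool.Agent.W5h46.MW

/-- the stabilizer of a point of `A × {1, ..., n}` -/
theorem stab (A : Type) [Group A] [Finite A] (n : ℕ) (i₀ : Fin n) :
    ∃ U : Subgroup ((Fin n → A) ⋊[mulAutArrow] Equiv.Perm (Fin n)),
      U.normalCore = ⊥ ∧ U.index = Nat.card A * n ∧
      ∀ w : (Fin n → A) ⋊[mulAutArrow] Equiv.Perm (Fin n), w ∈ U ↔ w.right i₀ = i₀ ∧ w.left i₀ = 1 := by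
  classical
  let _ := Pool.Agent.TH444.ML.wrAct A n
  have hdef : ∀ (w : Pool.Agent.H391R2.Wr A n) (x : A × Fin n),
      w • x = (w.left (w.right x.2) * x.1, w.right x.2) := fun _ _ => rfl
  have htrans : ∀ x : A × Fin n, ∃ w : Pool.Agent.H391R2.Wr A n, w • ((1 : A), i₀) = x := by
    rintro ⟨a, i⟩
    refine ⟨⟨fun _ => a, Equiv.swap i₀ i⟩, ?_⟩
    rw [hdef]
    simp
  refine ⟨MulAction.stabilizer (Pool.Agent.H391R2.Wr A n) ((1 : A), i₀), ?_, ?_, ?_⟩
  · rw [eq_bot_iff]
    intro x hx
    have hfix : ∀ y : A × Fin n, x • y = y := by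
      intro y
      obtain ⟨w, rfl⟩ := htrans y
      have h1 : w⁻¹ * x * w ∈ MulAction.stabilizer (Pool.Agent.H391R2.Wr A n) ((1 : A), i₀) := by
        have := hx w⁻¹
        simpa using this
      rw [MulAction.mem_stabilizer_iff, mul_smul, mul_smul, inv_smul_eq_iff] at h1
      exact h1
    rw [Subgroup.mem_bot]
    have hr : x.right = 1 := by
      ext i
      have := congrArg (fun z : A × Fin n => (z.2 : ℕ)) (hfix (1, i))
      simpa [hdef] using this
    apply SemidirectProduct.ext
    · funext i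
      have := congrArg Prod.fst (hfix (1, i))
      rw [hdef] at this
      simp only [hr, Equiv.Perm.one_apply, mul_one] at this
      exact this
    · exact hr
  · rw [MulAction.index_stabilizer]
    have : MulAction.orbit (Pool.Agent.H391R2.Wr A n) ((1 : A), i₀) = Set.univ := by
      rw [Set.eq_univ_iff_forall]
      intro x
      obtain ⟨w, hw⟩ := htrans x
      exact ⟨w, hw⟩
    rw [this, Set.ncard_univ, Nat.card_prod, Nat.card_fin]
  · intro w
    rw [MulAction.mem_stabilizer_iff, hdef]
    constructor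
    · intro h
      have h1 : w.right i₀ = i₀ := congrArg Prod.snd h
      have h2 : w.left (w.right i₀) * 1 = 1 := congrArg Prod.fst h
      rw [h1, mul_one] at h2
      exact ⟨h1, h2⟩
    · rintro ⟨h1, h2⟩
      simp only [h1, h2, mul_one]

end Pool.Agent.W5h46.MW
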