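import Pool.Agent.TH444.TW.ClsDef

/-!
# JOB X: two examples of homomorphisms in the class `Cls`
-/

set_option autoImplicit false

open Pool.Agent.H391R2 (Wr)
open Pool.Agent.TH444.TW (Cls IsTwistedPower twist)

namespace Pool.Agent.W5h46.MW

/-- the projection `(A ≀ S_n) × Y → Y` -/
theorem cls_prod (K : Type) [Field K] (A Y : Type) [Group A] [Finite A] [Group Y] (n : ℕ)
    (hn : ((3 * Nat.card A + 2).factorial) ^ 3 ≤ n) :
    Cls K (MonoidHom.snd (Wr A n) Y) := by
  refine Cls.wreath _ A n hn ⟨1, 1,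
    (MonoidHom.inl (Wr A n) Y).comp (Pi.evalMonoidHom (fun _ : Fin 1 => Wr A n) 0),
    MonoidHom.inr (Wr A n) Y, ?_, ?_, ?_, ?_⟩
  · intro x y h
    funext i
    have hi : i = 0 := Subsingleton.elim _ _
    subst hi
    exact congrArg Prod.fst h
  · ext ⟨x, y⟩
    rw [MonoidHom.mem_ker, MonoidHom.mem_range]
    constructor
    · rintro ⟨z, hz⟩
      exact (congrArg Prod.snd hz).symm
    · intro h
      have h' : y = 1 := h
      subst h'
      exact ⟨fun _ => x, rfl⟩
  · intro w
    rfl
  · intro w x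
    have h1 : (fun i => twist (((1 : Y →* Wr (MulAut A) 1) w).left i)
        (x (((1 : Y →* Wr (MulAut A) 1) w).right⁻¹ i))) = x := by
      funext i
      have hi : (((1 : Y →* Wr (MulAut A) 1) w).right⁻¹ i) = i := Subsingleton.elim _ _
      rw [hi]
      rfl
    rw [h1]
    apply Prod.ext
    · change 1 * x 0 = x 0 * 1
      rw [one_mul, mul_one]
    · change w * 1 = 1 * w
      rw [one_mul, mul_one]

/-- the homomorphism of a finite abelian group to the trivial group -/
theorem cls_ab (K : Type) [Field K] (Y : Type) [Group Y] [Finite Y]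
    (h : ∀ x y : Y, x * y = y * x) : Cls K (1 : Y →* Unit) :=
  Cls.abelian _ 1 (fun _ => rfl) inferInstance (fun x y _ _ => h x y)

end Pool.Agent.W5h46.MW
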