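import Pool.Agent.W5h46.MW.Defs
import Pool.Agent.W5h46.ML.Few

/-!
# JOB W6: the sum over the pairs `(P, M)`
-/

set_option autoImplicit false

open NumberField IntermediateField Pool.Agent.TH444.ML

namespace Pool.Agent.W5h46.MW

open Pool.Agent.TH228.J3101 (nf dsc_eq one_le)
open Pool.Agent.W5h46.MR (fix_inj le_of_fix exists_field)

/-- a sum over objects which determine fields of degree `d`, up to finitely many -/
theorem summable_of_fields (hherm : HermiteRel) {K Ω A : Type} [Field K] [NumberField K] [Field Ω]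
    [Algebra K Ω] [IsAlgClosure K Ω] (F : A → IntermediateField K Ω) (d B : ℕ)
    (hfd : ∀ a, FiniteDimensional K (F a)) (hfr : ∀ a, Module.finrank K (F a) = d)
    (hfib : ∀ (s : Finset A) (F₀ : IntermediateField K Ω), (∀ a ∈ s, F a = F₀) → s.card ≤ B)
    (f : A → ℝ) (hf0 : ∀ a, 0 ≤ f a) (hbound : ∀ a, f a ≤ 1 / (dsc (F a)) ^ (2 * d + 2)) :
    Summable f := by
  classical
  obtain ⟨C, hC⟩ := hherm K Ω d
  have hnF : ∀ M, NumberField (F M) := fun M => by have := hfd M; exact nf _
  set g : A → ℕ := fun M => (discr (F M)).natAbs with hg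
  have hg1 : ∀ M, 1 ≤ g M := fun M => one_le (F M)
  have hgd : ∀ M, dsc (F M) = g M := fun M => dsc_eq (F M)
  have hbound' : ∀ M, f M ≤ (1 : ℝ) / (g M : ℝ) ^ (2 * d + 2) := by
    intro M
    rw [← hgd]
    exact hbound M
  have hC0 : ∀ m : ℕ, 1 ≤ m → ∀ s : Finset A, (∀ M ∈ s, g M = m) →
      (s.card : ℝ) ≤ (B * |C|) * (m : ℝ) ^ (2 * d) := by
    intro m hm s hs
    obtain ⟨hfin, hle⟩ := hC m (by exact_mod_cast hm)
    have h0 := Finset.card_le_mul_card_image (f := F) s B (fun F₀ _ => hfib _ F₀ fun a ha =>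
      (Finset.mem_filter.1 ha).2)
    have h1 : (s.image F).card ≤ Set.ncard {F : IntermediateField K Ω |
        FiniteDimensional K F ∧ Module.finrank K F = d ∧ dsc F ≤ (m : ℝ)} := by
      rw [← Set.ncard_coe_finset]
      refine Set.ncard_le_ncard ?_ hfin
      intro x hx
      rw [Finset.mem_coe, Finset.mem_image] at hx
      obtain ⟨M, hM, rfl⟩ := hx
      refine ⟨hfd M, hfr M, ?_⟩
      rw [hgd, ← hs M hM]
    have h2 : ((s.image F).card : ℝ) ≤ |C| * (m : ℝ) ^ (2 * d) := by
      refine le_trans (by exact_mod_cast h1) (hle.trans ?_)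
      exact mul_le_mul_of_nonneg_right (le_abs_self C) (by positivity)
    calc (s.card : ℝ) ≤ (B : ℝ) * ((s.image F).card : ℝ) := by exact_mod_cast h0
      _ ≤ B * (|C| * (m : ℝ) ^ (2 * d)) := mul_le_mul_of_nonneg_left h2 (by positivity)
      _ = _ := by ring
  have hC' : 0 ≤ (B * |C| : ℝ) := by positivity
  have hsum2 : Summable (fun m : ℕ => (1 : ℝ) / (m : ℝ) ^ 2) :=
    Real.summable_one_div_nat_pow.2 (by norm_num)
  refine Summable.of_nonneg_of_le hf0 hbound' ?_
  refine summable_of_sum_le (c := (B * |C|) * ∑' m : ℕ, (1 : ℝ) / (m : ℝ) ^ 2)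
    (fun M => by positivity) ?_
  intro s
  calc ∑ M ∈ s, (1 : ℝ) / (g M : ℝ) ^ (2 * d + 2)
      = ∑ m ∈ s.image g, ∑ M ∈ s with g M = m, (1 : ℝ) / (g M : ℝ) ^ (2 * d + 2) :=
        (Finset.sum_fiberwise_of_maps_to (fun M hM => Finset.mem_image_of_mem g hM) _).symm
    _ ≤ ∑ m ∈ s.image g, (B * |C|) * ((1 : ℝ) / (m : ℝ) ^ 2) := by
        refine Finset.sum_le_sum fun m hm => ?_
        obtain ⟨M0, hM0, hM0'⟩ := Finset.mem_image.1 hm
        have hm1 : 1 ≤ m := hM0' ▸ hg1 M0
        have hmpos : (0 : ℝ) < m := by exact_mod_cast hm1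
        have e1 : ∑ M ∈ s with g M = m, (1 : ℝ) / (g M : ℝ) ^ (2 * d + 2) =
            ((s.filter (fun M => g M = m)).card : ℝ) * (1 / (m : ℝ) ^ (2 * d + 2)) := by
          rw [Finset.sum_congr rfl (g := fun _ => (1 : ℝ) / (m : ℝ) ^ (2 * d + 2)),
            Finset.sum_const, nsmul_eq_mul]
          intro M hM
          rw [(Finset.mem_filter.1 hM).2]
        rw [e1]
        calc ((s.filter (fun M => g M = m)).card : ℝ) * (1 / (m : ℝ) ^ (2 * d + 2))
            ≤ ((B * |C|) * (m : ℝ) ^ (2 * d)) * (1 / (m : ℝ) ^ (2 * d + 2)) := by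
              refine mul_le_mul_of_nonneg_right ?_ (by positivity)
              exact hC0 m hm1 _ fun M hM => (Finset.mem_filter.1 hM).2
          _ = (B * |C|) * ((1 : ℝ) / (m : ℝ) ^ 2) := by
              rw [pow_add]
              field_simp
    _ = (B * |C|) * ∑ m ∈ s.image g, (1 : ℝ) / (m : ℝ) ^ 2 := by rw [Finset.mul_sum]
    _ ≤ (B * |C|) * ∑' m : ℕ, (1 : ℝ) / (m : ℝ) ^ 2 := by
        refine mul_le_mul_of_nonneg_left ?_ hC'
        exact hsum2.sum_le_tsum _ (fun m _ => by positivity)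

/-- the kernel is the core of the preimage of a core-free subgroup -/
theorem core_comap {G X : Type} [Group G] [Group X] (h : G →* X) (hs : Function.Surjective h)
    (U : Subgroup X) (hU : U.normalCore = ⊥) : (U.comap h).normalCore = h.ker := by
  ext σ
  rw [MonoidHom.mem_ker]
  constructor
  · intro hσ
    have h1 : h σ ∈ U.normalCore := by
      intro x
      obtain ⟨τ, rfl⟩ := hs x
      have := hσ τ
      rw [Subgroup.mem_comap, map_mul, map_mul, map_inv] at this
      exact this
    rw [hU, Subgroup.mem_bot] at h1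
    exact h1
  · intro hσ τ
    rw [Subgroup.mem_comap, map_mul, map_mul, map_inv, hσ, mul_one, mul_inv_cancel]
    exact one_mem _

theorem fewW (hr : HermiteRel) : FewW := by
  intro K Ω X _ _ _ _ _ _ _ V W U hWV hWU hU hcard
  have i2 : Normal K Ω := IsAlgClosure.normal K Ω
  have i3 : Algebra.IsAlgebraic K Ω := IsAlgClosure.isAlgebraic
  have i4 : Algebra.IsSeparable K Ω := inferInstance
  have i5 : IsGalois K Ω := ⟨⟩
  have hkerle : ∀ (h : (Ω ≃ₐ[K] Ω) →* X) (Y : Subgroup X), h.ker ≤ Y.comap h := by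
    intro h Y σ hσ
    rw [MonoidHom.mem_ker] at hσ
    rw [Subgroup.mem_comap, hσ]
    exact one_mem _
  have key : ∀ p : PW K Ω V W, ∃ F : IntermediateField K Ω, ∃ h : (Ω ≃ₐ[K] Ω) →* X,
      Function.Surjective h ∧ W.comap h = p.1.1.fixingSubgroup ∧
      V.comap h = p.1.2.fixingSubgroup ∧ F.fixingSubgroup = U.comap h ∧
      FiniteDimensional K F ∧ Module.finrank K F = U.index ∧
      dsc F ^ (W.relIndex U) ≤ dsc p.1.1 := by
    rintro ⟨⟨P, M⟩, hPfd, h, hs, hW, hV⟩
    simp only at hPfd hW hV ⊢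
    have hopen : IsOpen (P.fixingSubgroup : Set (Ω ≃ₐ[K] Ω)) := P.fixingSubgroup_isOpen
    have hle : P.fixingSubgroup ≤ U.comap h := by
      rw [← hW]
      exact Subgroup.comap_mono hWU
    obtain ⟨F, hF, hFfd⟩ := exists_field (U.comap h) (Subgroup.isOpen_mono hle hopen)
    have hFP : F ≤ P := le_of_fix (by rw [hF]; exact hle)
    have hFr : Module.finrank K F = U.index := by
      rw [IntermediateField.finrank_eq_fixingSubgroup_index, hF,
        Subgroup.index_comap_of_surjective _ hs]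
    have hPr : Module.finrank K P = W.index := by
      rw [IntermediateField.finrank_eq_fixingSubgroup_index, ← hW,
        Subgroup.index_comap_of_surjective _ hs]
    refine ⟨F, h, hs, hW, hV, hF, hFfd, hFr, ?_⟩
    apply Pool.Agent.W5h46.ML.dsc_tower F P hFP
    rw [hFr, hPr, mul_comm, Subgroup.relIndex_mul_index hWU]
  choose F h hs hW hV hF hFfd hFr hdsc using key
  set t : ℕ := W.relIndex V with htdef
  have hWi : W.index ≠ 0 := Subgroup.index_ne_zero_of_finite
  have ht : 1 ≤ t := by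
    rw [Nat.one_le_iff_ne_zero]
    intro h0
    have h1 := Subgroup.relIndex_mul_index hWV
    rw [← htdef, h0, zero_mul] at h1
    exact hWi h1.symm
  have ht0 : (t : ℝ) ≠ 0 := by
    have : t ≠ 0 := by omega
    exact_mod_cast this
  have hu : 1 ≤ U.index := Nat.one_le_iff_ne_zero.2 Subgroup.index_ne_zero_of_finite
  have hcU : 16 * (U.index + 1) * t ≤ W.relIndex U := by
    have h1 := Subgroup.relIndex_mul_index hWU
    have h2 := Subgroup.relIndex_mul_index hWV
    have : U.index * (16 * (U.index + 1) * t) ≤ U.index * W.relIndex U := by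
      calc U.index * (16 * (U.index + 1) * t) = t * (16 * U.index * (U.index + 1)) := by ring
        _ ≤ t * V.index := Nat.mul_le_mul_left _ hcard
        _ = W.index := h2
        _ = W.relIndex U * U.index := h1.symm
        _ = _ := by ring
    exact Nat.le_of_mul_le_mul_left this hu
  refine summable_of_fields hr F U.index (Nat.card (Subgroup X × Subgroup X)) hFfd hFr ?_ _ ?_ ?_
  · -- the fibres
    intro s F₀ hsF
    rcases s.eq_empty_or_nonempty with rfl | ⟨p₀, hp₀⟩
    · simp
    have hker : ∀ p ∈ s, (h p).ker = (h p₀).ker := by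
      intro p hp
      rw [← core_comap (h p) (hs p) U hU, ← core_comap (h p₀) (hs p₀) U hU, ← hF, ← hF,
        hsF p hp, hsF p₀ hp₀]
    have hcm : ∀ p ∈ s, ∀ Y : Subgroup X, ((Y.comap (h p)).map (h p₀)).comap (h p₀) =
        Y.comap (h p) := by
      intro p hp Y
      rw [Subgroup.comap_map_eq, ← hker p hp]
      exact sup_eq_left.2 (hkerle _ _)
    have hinj : Set.InjOn (fun p : PW K Ω V W =>
        ((p.1.1.fixingSubgroup.map (h p₀), p.1.2.fixingSubgroup.map (h p₀)) :
          Subgroup X × Subgroup X)) (s : Set (PW K Ω V W)) := by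
      intro p hp q hq hpq
      have h1 : p.1.1.fixingSubgroup.map (h p₀) = q.1.1.fixingSubgroup.map (h p₀) :=
        congrArg Prod.fst hpq
      have h2 : p.1.2.fixingSubgroup.map (h p₀) = q.1.2.fixingSubgroup.map (h p₀) :=
        congrArg Prod.snd hpq
      have h3 := congrArg (Subgroup.comap (h p₀)) h1
      have h4 := congrArg (Subgroup.comap (h p₀)) h2
      rw [← hW p, ← hW q, hcm p hp, hcm q hq, hW p, hW q] at h3
      rw [← hV p, ← hV q, hcm p hp, hcm q hq, hV p, hV q] at h4
      exact Subtype.ext (Prod.ext (fix_inj h3) (fix_inj h4))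
    have hfin : (Set.univ : Set (Subgroup X × Subgroup X)).Finite := Set.finite_univ
    rw [← Set.ncard_univ, ← Set.ncard_coe_finset]
    exact Set.ncard_le_ncard_of_injOn _ (fun _ _ => Set.mem_univ _) hinj hfin
  · intro p
    refine Real.rpow_nonneg ?_ _
    unfold dsc
    split_ifs with hn
    · exact_mod_cast abs_nonneg _
    · exact zero_le_one
  · intro p
    have hnF : NumberField (F p) := by have := hFfd p; exact nf _
    obtain ⟨g, hg⟩ : ∃ g : ℕ, g = (discr (F p)).natAbs := ⟨_, rfl⟩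
    have hgd : dsc (F p) = g := by rw [hg]; exact dsc_eq (F p)
    have h1 : (1 : ℝ) ≤ g := by rw [hg]; exact_mod_cast one_le (F p)
    have h2 : (g : ℝ) ^ (16 * (U.index + 1) * t) ≤ dsc p.1.1 := by
      refine le_trans ?_ (hdsc p)
      rw [hgd]
      exact pow_le_pow_right₀ h1 hcU
    have h3 : ((g : ℝ) ^ (16 * (U.index + 1) * t)) ^ (-(1 / (8 * (t : ℝ)))) =
        (1 : ℝ) / (g : ℝ) ^ (2 * U.index + 2) := by
      have h4 : (1 : ℝ) / (g : ℝ) ^ (2 * U.index + 2) =
          (g : ℝ) ^ (-((2 * U.index + 2 : ℕ) : ℝ)) := by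
        rw [Real.rpow_neg (by positivity), Real.rpow_natCast, one_div]
      rw [h4, ← Real.rpow_natCast, ← Real.rpow_mul (by positivity)]
      congr 1
      push_cast
      field_simp
      ring
    rw [hgd, ← h3]
    refine Real.rpow_le_rpow_of_nonpos (by positivity) h2 ?_
    have : (0 : ℝ) ≤ 1 / (8 * t) := by positivity
    linarith

end Pool.Agent.W5h46.MW

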