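import Pool.Agent.W5h46.MW.Main3
import Pool.Agent.W5h46.MW.W1
import Pool.Agent.W5h46.MW.W6
import Pool.Agent.W5h46.MW.Fin
import Pool.Agent.W5h46.MR.Facts

/-!
# The asymptotic formula for `C₂ ^ (X / V) ⋊ X` acting on `X / W × {0, 1}`
-/

set_option autoImplicit false
set_option linter.unusedSectionVars false

open IntermediateField Filter Topology NumberField

namespace Pool.Agent.W5h46.MW

open Pool.Agent.TH444.ML (dsc Gal Cnt quadUnif)

/-- the facts which are proved in other files -/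
structure Rest : Prop where
  fwd : ForwardW
  bwd : BackwardW
  uni : UniqueW
  hyp : HypW
  ex : ExistsW
  conj : ConjW
  pow : ∀ (K Ω : Type) [Field K] [NumberField K] [Field Ω] [Algebra K Ω]
      (M N : IntermediateField K Ω) [FiniteDimensional K N], M ≤ N → ∀ (r : ℕ),
      Module.finrank K N = r * Module.finrank K M → dsc M ^ r ≤ dsc N

theorem asymp_isoW (R : Rest) (K : Type) [Field K] [NumberField K] (X : Type) [Group X] [Finite X]
    (V W U : Subgroup X) (hWV : W ≤ V) (hWU : W ≤ U) (hU : U.normalCore = ⊥)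
    (hc : 16 * U.index * (U.index + 1) ≤ V.index)
    (hne : (Gal K (AlgebraicClosure K) X).Nonempty) {n : ℕ} (G : Subgroup (Equiv.Perm (Fin n)))
    (hG : IsC2W V W G) :
    ∃ c : ℝ, 0 < c ∧ Tendsto (fun B : ℝ =>
      (Nat.card (Quot (fun L L' : Cnt K G B => Nonempty (L.1 ≃ₐ[K] L'.1))) : ℝ) /
        B ^ (1 / (W.relIndex V : ℝ))) atTop (𝓝 c) := by
  have hyp := R.hyp X V W U hWV hWU hU hc
  have hd : 0 < ((|discr K| : ℤ) : ℝ) ^ n := by
    have : (0 : ℤ) < |discr K| := abs_pos.2 (discr_ne_zero K)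
    have : (0 : ℝ) < ((|discr K| : ℤ) : ℝ) := by exact_mod_cast this
    positivity
  refine asympW_iso R.conj K X V W hG ?_
  exact main_asympW R.fwd R.bwd R.uni V W hyp _
    (boundSW Pool.Agent.W5h46.MR.unifR₀ R.pow basicW K (AlgebraicClosure K) X V W hyp _ hd)
    (fun P M h => limSW Pool.Agent.W5h46.MR.limR₀ Pool.Agent.W5h46.MR.compR₀
      Pool.Agent.W5h46.MR.fibR quadUnif Pool.Agent.TH263.J3086.discQuad Pool.Agent.TH914.J3087.kumP
      Pool.Agent.TH857.J3095.splitSum Pool.Agent.W5h46.MR.unifR₀ basicW hyp h _ hd)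
    (fewW Pool.Agent.TH979.J3100.hermiteRel K (AlgebraicClosure K) X V W U hWV hWU hU hc)
    (R.ex K (AlgebraicClosure K) X V W hne)

theorem gal_of_cnt (R : Rest) (K : Type) [Field K] [NumberField K] (X : Type) [Group X] [Finite X]
    (V W U : Subgroup X) (hWV : W ≤ V) (hWU : W ≤ U) (hU : U.normalCore = ⊥)
    (hc : 16 * U.index * (U.index + 1) ≤ V.index) {n : ℕ} {G : Subgroup (Equiv.Perm (Fin n))}
    (hG : IsC2W V W G) {B : ℝ} {L : IntermediateField K (AlgebraicClosure K)} (hL : L ∈ Cnt K G B) :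
    ∃ M : IntermediateField K (AlgebraicClosure K), M ∈ Gal K (AlgebraicClosure K) X :=
  gal_of_cntW R.fwd basicW K X V W (R.hyp X V W U hWV hWU hU hc) hG hL

end Pool.Agent.W5h46.MW
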