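import Pool.Agent.W5h46.MW.Main2

/-!
# Assembly of the asymptotic formula
-/

set_option autoImplicit false
set_option linter.unusedSectionVars false

open IntermediateField Filter Topology NumberField

namespace Pool.Agent.W5h46.MW

open Pool.Agent.TH444.ML (dsc Gal)

section

variable {K Ω X : Type} [Field K] [NumberField K] [Field Ω] [Algebra K Ω] [IsAlgClosure K Ω] [Group X]
  [Finite X]

theorem TTW_eq (hF : ForwardW) (hBk : BackwardW) {V W : Subgroup X} (hyp : Hyp V W) (Z : ℝ) :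
    TTW K Ω V W Z = ⋃ p : PW K Ω V W, SW V W p.1.1 p.1.2 Z := by
  ext L
  simp only [Set.mem_iUnion]
  constructor
  · rintro ⟨h1, h2, h3⟩
    obtain ⟨P, M, hM⟩ := hF K Ω X V W hyp L h1 h2
    exact ⟨⟨(P, M), hM.1⟩, hM, h3⟩
  · rintro ⟨p, ⟨⟨hfd, h, hs, hw, hv⟩, hL, hfull⟩, h3⟩
    obtain ⟨h4, h5, e, -, he⟩ := hBk K Ω X V W hyp L p.1.1 p.1.2 h hs hfd hw hv hL hfull
    exact ⟨h5, ⟨e, he⟩, h3⟩

theorem main_asympW (hF : ForwardW) (hBk : BackwardW) (hU : UniqueW) (V W : Subgroup X) (hyp : Hyp V W)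
    (D : ℝ)
    (hb : ∃ C : ℝ, 0 ≤ C ∧ ∀ P M : IntermediateField K Ω, (P, M) ∈ PW K Ω V W → ∀ B : ℝ, 0 < B →
      (SW V W P M (B * D)).Finite ∧
      (Set.ncard (SW V W P M (B * D)) : ℝ) ≤
        C * B ^ (1 / (W.relIndex V : ℝ)) * (dsc P) ^ (-(1 / (8 * (W.relIndex V : ℝ)))))
    (hl : ∀ P M : IntermediateField K Ω, (P, M) ∈ PW K Ω V W → ∃ c : ℝ, 0 < c ∧
      Tendsto (fun B : ℝ => (Set.ncard (SW V W P M (B * D)) : ℝ) / B ^ (1 / (W.relIndex V : ℝ)))
        atTop (𝓝 c))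
    (hs : Summable (fun p : PW K Ω V W => (dsc p.1.1) ^ (-(1 / (8 * (W.relIndex V : ℝ))))))
    (hne : (PW K Ω V W).Nonempty) :
    (∀ B : ℝ, 0 < B → (TTW K Ω V W (B * D)).Finite) ∧ ∃ c : ℝ, 0 < c ∧
      Tendsto (fun B : ℝ => (Set.ncard (TTW K Ω V W (B * D)) : ℝ) / B ^ (1 / (W.relIndex V : ℝ)))
        atTop (𝓝 c) := by
  classical
  obtain ⟨C, hC0, hC⟩ := hb
  choose cM hcM using fun p : PW K Ω V W => hl p.1.1 p.1.2 p.2
  obtain ⟨δ, hδ⟩ : ∃ δ : ℝ, δ = -(1 / (8 * (W.relIndex V : ℝ))) := ⟨_, rfl⟩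
  obtain ⟨a, ha⟩ : ∃ a : ℝ, a = 1 / (W.relIndex V : ℝ) := ⟨_, rfl⟩
  rw [← hδ] at hs hC
  simp only [← ha] at hC hcM ⊢
  have hsum' : Summable (fun p : PW K Ω V W => C * (dsc p.1.1) ^ δ) := hs.mul_left C
  -- for fixed `B`
  have key : ∀ B : ℝ, 0 < B → (TTW K Ω V W (B * D)).Finite ∧
      (Set.ncard (TTW K Ω V W (B * D)) : ℝ) =
        ∑' p : PW K Ω V W, (Set.ncard (SW V W p.1.1 p.1.2 (B * D)) : ℝ) := by
    intro B hB
    have hs1 : Summable (fun p : PW K Ω V W => (Set.ncard (SW V W p.1.1 p.1.2 (B * D)) : ℝ)) := by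
      refine Summable.of_nonneg_of_le (fun M => by positivity)
        (fun p => (hC p.1.1 p.1.2 p.2 B hB).2) ?_
      have : (fun p : PW K Ω V W => C * B ^ a * (dsc p.1.1) ^ δ) =
          fun p : PW K Ω V W => B ^ a * (C * (dsc p.1.1) ^ δ) := by
        funext M; ring
      rw [this]
      exact hsum'.mul_left _
    have hfs : {p : PW K Ω V W | (SW V W p.1.1 p.1.2 (B * D)).Nonempty}.Finite := by
      have h := hs1.tendsto_cofinite_zero.eventually (gt_mem_nhds (zero_lt_one (α := ℝ)))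
      rw [Filter.eventually_cofinite] at h
      refine h.subset ?_
      intro p hp
      simp only [Set.mem_ofPred_eq, not_lt]
      have hf := (hC p.1.1 p.1.2 p.2 B hB).1
      have : 0 < Set.ncard (SW V W p.1.1 p.1.2 (B * D)) := (Set.ncard_pos hf).2 hp
      exact_mod_cast this
    have hT : TTW K Ω V W (B * D) = ⋃ p ∈ hfs.toFinset, SW V W p.1.1 p.1.2 (B * D) := by
      rw [TTW_eq hF hBk hyp]
      ext L
      simp only [Set.mem_iUnion, Set.Finite.mem_toFinset, Set.mem_ofPred_eq, exists_prop]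
      constructor
      · rintro ⟨M, hM⟩
        exact ⟨M, ⟨L, hM⟩, hM⟩
      · rintro ⟨M, -, hM⟩
        exact ⟨M, hM⟩
    have hTf : (TTW K Ω V W (B * D)).Finite := by
      rw [hT]
      exact Set.Finite.biUnion hfs.toFinset.finite_toSet (fun p _ => (hC p.1.1 p.1.2 p.2 B hB).1)
    refine ⟨hTf, ?_⟩
    have hTb : hTf.toFinset =
        hfs.toFinset.biUnion (fun p => ((hC p.1.1 p.1.2 p.2 B hB).1).toFinset) := by
      ext L
      rw [Set.Finite.mem_toFinset, hT]
      simp only [Set.mem_iUnion, Finset.mem_biUnion, Set.Finite.mem_toFinset, exists_prop]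
    have hcard : (TTW K Ω V W (B * D)).ncard =
        ∑ p ∈ hfs.toFinset, (SW V W p.1.1 p.1.2 (B * D)).ncard := by
      rw [Set.ncard_eq_toFinset_card _ hTf, hTb, Finset.card_biUnion]
      · refine Finset.sum_congr rfl fun p _ => ?_
        exact (Set.ncard_eq_toFinset_card _ (hC p.1.1 p.1.2 p.2 B hB).1).symm
      · intro p _ p' _ hpp
        simp only [Function.onFun]
        rw [Finset.disjoint_left]
        intro L h1 h2'
        rw [Set.Finite.mem_toFinset] at h1 h2'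
        have h3 := hU K Ω X V W hyp L p.1.1 p.1.2 p'.1.1 p'.1.2 h1.1 h2'.1
        exact hpp (Subtype.ext (Prod.ext h3.1 h3.2))
    rw [hcard, tsum_eq_sum (s := hfs.toFinset)]
    · push_cast; rfl
    · intro p hp
      have : ¬ (SW V W p.1.1 p.1.2 (B * D)).Nonempty := by
        intro h; exact hp (by simpa using h)
      rw [Set.not_nonempty_iff_eq_empty] at this
      rw [this]; simp
  refine ⟨fun B hB => (key B hB).1, ∑' p : PW K Ω V W, cM p, ?_, ?_⟩
  · have hle : ∀ p : PW K Ω V W, cM p ≤ C * (dsc p.1.1) ^ δ := by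
      intro p
      refine le_of_tendsto (hcM p).2 ?_
      filter_upwards [eventually_gt_atTop (0 : ℝ)] with B hB
      rw [div_le_iff₀ (Real.rpow_pos_of_pos hB _)]
      have := (hC p.1.1 p.1.2 p.2 B hB).2
      linarith
    have hs2 : Summable cM :=
      Summable.of_nonneg_of_le (fun p => (hcM p).1.le) hle hsum'
    obtain ⟨p₀, hp₀⟩ := hne
    exact hs2.tsum_pos (fun p => (hcM p).1.le) ⟨p₀, hp₀⟩ (hcM _).1
  · have h := tendsto_tsum_of_dominated_convergence (𝓕 := atTop)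
      (f := fun (B : ℝ) (p : PW K Ω V W) => (Set.ncard (SW V W p.1.1 p.1.2 (B * D)) : ℝ) / B ^ a)
      (g := cM) hsum' (fun p => (hcM p).2) (by
        filter_upwards [eventually_gt_atTop (0 : ℝ)] with B hB p
        have hBa : 0 < B ^ a := Real.rpow_pos_of_pos hB _
        rw [Real.norm_of_nonneg (by positivity), div_le_iff₀ hBa]
        have := (hC p.1.1 p.1.2 p.2 B hB).2
        linarith)
    refine h.congr' ?_
    filter_upwards [eventually_gt_atTop (0 : ℝ)] with B hB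
    rw [(key B hB).2, tsum_div_const]

end

end Pool.Agent.W5h46.MW
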